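import Pool.Agent.L0h38.GI.Stm5
import Pool.Agent.L0h68.GI.SBS

/-!
# Project GI3, module MRG (helper6): merging of adjacent twins
-/

set_option autoImplicit false

namespace Pool.Agent.L0h6.GI

open Pool.Agent.L0h38.GI Pool.Agent.L0h68.GI

theorem twin_symm {V : Type} {Γ : SimpleGraph V} {v w : V} (h : Twin Γ v w) : Twin Γ w v :=
  ⟨h.1.symm, fun u h1 h2 => (h.2 u h2 h1).symm⟩

theorem twin_trans {V : Type} {Γ : SimpleGraph V} {u v w : V} (h : Twin Γ u v) (h' : Twin Γ v w)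
    (hne : u ≠ w) : Twin Γ u w := by
  have huv : u ≠ v := h.1.ne
  have hvw : v ≠ w := h'.1.ne
  have h1 : Γ.Adj w u := (h'.2 u huv hne).1 h.1.symm
  refine ⟨h1.symm, fun x hxu hxw => ?_⟩
  by_cases hxv : x = v
  · subst hxv
    exact ⟨fun _ => h'.1.symm, fun _ => h.1⟩
  · exact (h.2 x hxu hxv).trans (h'.2 x hxv hxw)

/-- the equivalence relation -/
def tws {n : ℕ} (Γ : SimpleGraph (Fin n)) (A : Fin n → Prop) : Setoid (Fin n) where
  r v w := v = w ∨ (A v ∧ A w ∧ Twin Γ v w)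
  iseqv := by
    refine ⟨fun v => Or.inl rfl, ?_, ?_⟩
    · rintro v w (h | ⟨h1, h2, h3⟩)
      · exact Or.inl h.symm
      · exact Or.inr ⟨h2, h1, twin_symm h3⟩
    · rintro u v w (h | ⟨h1, h2, h3⟩) (h' | ⟨h1', h2', h3'⟩)
      · exact Or.inl (h.trans h')
      · subst h; exact Or.inr ⟨h1', h2', h3'⟩
      · subst h'; exact Or.inr ⟨h1, h2, h3⟩
      · by_cases hne : u = w
        · exact Or.inl hne
        · exact Or.inr ⟨h1, h2', twin_trans h3 h3' hne⟩

theorem t_MRG : S_MRG := by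
  classical
  intro n Γ G _ A
  have hfin : Finite (Quotient (tws Γ A)) := inferInstance
  obtain ⟨m, ⟨e⟩⟩ := Finite.exists_equiv_fin (Quotient (tws Γ A))
  obtain ⟨r, hr⟩ : ∃ r : Fin n → Fin m, r = fun v => e (Quotient.mk (tws Γ A) v) := ⟨_, rfl⟩
  have hsurj : Function.Surjective r := by
    intro j
    obtain ⟨v, hv⟩ := Quotient.exists_rep (e.symm j)
    refine ⟨v, ?_⟩
    rw [hr]
    show e (Quotient.mk (tws Γ A) v) = j
    rw [hv, Equiv.apply_symm_apply]
  have hrel : ∀ v w, r v = r w ↔ v = w ∨ (A v ∧ A w ∧ Twin Γ v w) := by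
    intro v w
    rw [hr]
    show e (Quotient.mk (tws Γ A) v) = e (Quotient.mk (tws Γ A) w) ↔ _
    rw [e.apply_eq_iff_eq]
    exact Quotient.eq (r := tws Γ A)
  -- adjacency is compatible with the classes
  have hadj : ∀ v v' w : Fin n, r v' = r v → r w ≠ r v → Γ.Adj v' w → Γ.Adj v w := by
    intro v v' w h1 h2 h3
    rcases (hrel _ _).1 h1 with h | ⟨-, -, h⟩
    · subst h; exact h3
    · refine (h.2 w ?_ ?_).1 h3
      · rintro rfl; exact h2 h1
      · rintro rfl; exact h2 rfl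
  obtain ⟨Δ, hΔ⟩ : ∃ Δ : SimpleGraph (Fin m), ∀ j j', Δ.Adj j j' ↔
      j ≠ j' ∧ ∃ v w, r v = j ∧ r w = j' ∧ Γ.Adj v w := by
    refine ⟨⟨fun j j' => j ≠ j' ∧ ∃ v w, r v = j ∧ r w = j' ∧ Γ.Adj v w, ⟨?_⟩, ⟨?_⟩⟩,
      fun j j' => Iff.rfl⟩
    · rintro j j' ⟨h1, v, w, h2, h3, h4⟩
      exact ⟨h1.symm, w, v, h3, h2, h4.symm⟩
    · rintro j ⟨h1, -⟩
      exact h1 rfl
  have hΔ' : ∀ v w, r v ≠ r w → (Δ.Adj (r v) (r w) ↔ Γ.Adj v w) := by
    intro v w hvw
    rw [hΔ]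
    constructor
    · rintro ⟨-, v', w', h1, h2, h3⟩
      have h4 : Γ.Adj v w' := hadj v v' w' h1 (by rw [h2]; exact hvw.symm) h3
      have h5 : Γ.Adj w v := hadj w w' v h2 hvw h4.symm
      exact h5.symm
    · intro h
      exact ⟨hvw, v, w, rfl, rfl, h⟩
  refine ⟨m, Δ, r, hsurj, hrel, hΔ', ?_, ?_⟩
  · intro v w hv hw htw
    have hne : r v ≠ r w := htw.1.ne
    apply hne
    rw [hrel]
    right
    refine ⟨hv, hw, (hΔ' v w hne).1 htw.1, fun u huv huw => ?_⟩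
    have hvw : Γ.Adj v w := (hΔ' v w hne).1 htw.1
    by_cases h1 : r u = r v
    · have h2 : Γ.Adj v u := by
        rcases (hrel _ _).1 h1 with h | ⟨-, -, h⟩
        · exact absurd h huv
        · exact h.1.symm
      have h3 : Γ.Adj u w := hadj u v w h1.symm (by rw [h1]; exact hne.symm) hvw
      exact ⟨fun _ => h3.symm, fun _ => h2⟩
    · by_cases h2 : r u = r w
      · have h3 : Γ.Adj w u := by
          rcases (hrel _ _).1 h2 with h | ⟨-, -, h⟩
          · exact absurd h huw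
          · exact h.1.symm
        have h4 : Γ.Adj u v := hadj u w v h2.symm (by rw [h2]; exact hne) hvw.symm
        exact ⟨fun _ => h3, fun _ => h4.symm⟩
      · rw [← hΔ' v u (Ne.symm h1), ← hΔ' w u (Ne.symm h2)]
        exact htw.2 (r u) h1 h2
  · obtain ⟨f⟩ := refine_iso Δ (fun j => ∀ i : {v // r v = j}, G i.1) (fun j => {v // r v = j})
      (fun j i => G i.1) (fun j => MulEquiv.refl _)
    obtain ⟨g⟩ := reindex Γ G (Equiv.sigmaFiberEquiv r)
    have hgr : Γ.comap (Equiv.sigmaFiberEquiv r) = rg Δ (fun j => {v // r v = j}) := by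
      ext ⟨j, v, hv⟩ ⟨j', w, hw⟩
      subst hv
      subst hw
      show Γ.Adj v w ↔ ((⟨r v, ⟨v, rfl⟩⟩ : Σ j, {v // r v = j}) ≠ ⟨r w, ⟨w, rfl⟩⟩ ∧
        (r v = r w ∨ Δ.Adj (r v) (r w)))
      constructor
      · intro h
        refine ⟨fun he => h.ne (congrArg (Equiv.sigmaFiberEquiv r) he), ?_⟩
        by_cases hvw : r v = r w
        · exact Or.inl hvw
        · exact Or.inr ((hΔ' v w hvw).2 h)
      · rintro ⟨h1, h2 | h2⟩
        · rcases (hrel _ _).1 h2 with h | ⟨-, -, h⟩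
          · subst h
            exact absurd rfl h1
          · exact h.1
        · exact (hΔ' v w h2.ne).1 h2
    rw [hgr] at g
    exact ⟨g.trans f.symm⟩

end Pool.Agent.L0h6.GI
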