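import Pool.Agent.L0h38.GI.Stm5
import Pool.Agent.Q32.DP.PRODL
import Pool.Agent.Q32.DP.PROD2
import Pool.Agent.L0h64.GI.FAP
import Pool.Agent.L0h8.GI.FAQZ

/-!
# Project GI3, module PRD (helper6): direct products
-/

set_option autoImplicit false

namespace Pool.Agent.L0h6.GI

open Pool.Agent.L0h38.GI Pool.Agent.Q223.IS Pool.Agent.Q32.DP Pool.Agent.Q32.DP.PRODL

theorem pi_re {ι κ : Type} (τ : ι ≃ κ) (A : ι → Pres) (B : κ → Pres) (h : ∀ i, A i = B (τ i)) :
    Nonempty ((∀ i, PG (A i)) ≃* ∀ j, PG (B j)) := by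
  have h0 : A = fun i => B (τ i) := funext h
  subst h0
  exact ⟨{ Equiv.piCongrLeft (fun j => PG (B j)) τ with
    map_mul' := by
      intro a b
      show Equiv.piCongrLeft (fun j => PG (B j)) τ (a * b) =
        Equiv.piCongrLeft (fun j => PG (B j)) τ a * Equiv.piCongrLeft (fun j => PG (B j)) τ b
      funext j
      obtain ⟨i, rfl⟩ := τ.surjective j
      rw [Pi.mul_apply, Equiv.piCongrLeft_apply_apply, Equiv.piCongrLeft_apply_apply,
        Equiv.piCongrLeft_apply_apply]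
      rfl }⟩

theorem get_of {m : ℕ} (f : Fin m → Pres) {M : List Pres} (hM : M = List.ofFn f)
    (hl : M.length = m) (i : Fin M.length) : M.get i = f (finCongr hl i) := by
  subst hM
  rw [List.get_ofFn]
  rfl

theorem t_PRD : S_PRD := by
  intro C hC
  obtain ⟨P, -, hP⟩ := PRODL.t PROD2.t
  refine ⟨?_, ?_, ?_⟩
  · rintro p ⟨a, L, ha, hL, ⟨e⟩⟩
    refine ⟨?_, ?_⟩
    · have h1 : FA (PL L) := L0h64.GI.t_FAI L0h64.GI.t_FAP L0h8.GI.t_FAQ (Fin L.length)
        (fun i => PG (L.get i)) fun i => (hC _ (hL _ (List.get_mem L i))).1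
      exact L0h8.GI.t_FAQ _ _ (L0h64.GI.t_FAP _ _ (hC a ha).1 h1) e.symm.toMonoidHom
        e.symm.surjective
    · obtain ⟨x, hx⟩ := (hC a ha).2
      refine ⟨e.symm (x, 1), fun h => hx ?_⟩
      have h1 := (map_eq_one_iff e.symm e.symm.injective).1 h
      exact congrArg Prod.fst h1
  · intro ι _ hne k hk
    obtain ⟨n, ⟨σ⟩⟩ := Finite.exists_equiv_fin ι
    obtain ⟨M, hM⟩ : ∃ M : List Pres, M = List.ofFn (fun i => k (σ.symm i)) := ⟨_, rfl⟩
    have hl : M.length = n := by rw [hM, List.length_ofFn]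
    rcases M with _ | ⟨a, L⟩
    · exfalso
      obtain ⟨i⟩ := hne
      have h0 : n = 0 := hl.symm
      exact absurd (lt_of_lt_of_eq (σ i).2 h0) (Nat.not_lt_zero _)
    · have hmem : ∀ q ∈ a :: L, C q := by
        intro q hq
        rw [hM] at hq
        obtain ⟨i, rfl⟩ := List.mem_ofFn.1 hq
        exact hk _
      obtain ⟨e1⟩ := hP a L
      obtain ⟨e2⟩ := pi_re ((finCongr hl).trans σ.symm) (fun i => (a :: L).get i) k
        (fun i => get_of _ hM hl i)
      exact ⟨P (a, L), ⟨a, L, hmem a List.mem_cons_self,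
        fun q hq => hmem q (List.mem_cons_of_mem _ hq), ⟨e1⟩⟩,
        ⟨(e1.trans (consM a L)).trans e2⟩⟩
  · rintro p ⟨a, L, ha, hL, ⟨e⟩⟩
    refine ⟨(a :: L).length, (a :: L).get, fun i => ?_, ⟨e.trans (consM a L)⟩⟩
    have := List.get_mem (a :: L) i
    rcases List.mem_cons.1 this with h | h
    · rw [h]; exact ha
    · exact hL _ h

end Pool.Agent.L0h6.GI
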