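import Pool.Agent.L0h6.GI.MRG
import Pool.Agent.L0h6.GI.PRD
import Pool.Agent.L0h57.GI.ALGG

/-!
# Project GI3, module RED (helper6): coded labelled graphs without adjacent twins
-/

set_option autoImplicit false

namespace Pool.Agent.L0h6.GI

open Pool.Agent.L0h38.GI Pool.Agent.Q223.IS Pool.Agent.Q32.DP Pool.Agent.L0h57.GI

/-- the code of a labelled graph -/
theorem code_gr {n : ℕ} (Γ : SimpleGraph (Fin n)) (k : Fin n → Pres) :
    ∃ (E : List (ℕ × ℕ)) (σ : Γ ≃g gr E (List.ofFn k).length),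
      ∀ i : Fin n, (List.ofFn k).get (σ i) = k i := by
  classical
  let E : List (ℕ × ℕ) := (((List.finRange n) ×ˢ (List.finRange n)).filter
    (fun x => Γ.Adj x.1 x.2)).map (fun x => (x.1.1, x.2.1))
  have hE : ∀ i j : Fin n, (i.1, j.1) ∈ E ↔ Γ.Adj i j := by
    intro i j
    constructor
    · intro hij
      obtain ⟨⟨a, b⟩, hab, heq⟩ := List.mem_map.1 hij
      have h1 := (List.mem_filter.1 hab).2
      have h2 : Γ.Adj a b := by simpa using h1
      have ha : a = i := Fin.ext (Prod.mk.inj heq).1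
      have hb : b = j := Fin.ext (Prod.mk.inj heq).2
      rw [← ha, ← hb]
      exact h2
    · intro hij
      refine List.mem_map.2 ⟨(i, j), List.mem_filter.2 ⟨?_, ?_⟩, rfl⟩
      · exact List.pair_mem_product.2 ⟨List.mem_finRange _, List.mem_finRange _⟩
      · simpa using hij
  have hlen : n = (List.ofFn k).length := (List.length_ofFn).symm
  let σ : Γ ≃g gr E (List.ofFn k).length :=
    { toEquiv := finCongr hlen
      map_rel_iff' := by
        intro i j
        show (finCongr hlen i ≠ finCongr hlen j ∧ ((i.1, j.1) ∈ E ∨ (j.1, i.1) ∈ E)) ↔ Γ.Adj i j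
        rw [hE, hE]
        constructor
        · rintro ⟨-, h | h⟩
          · exact h
          · exact h.symm
        · intro h
          exact ⟨fun h' => h.ne ((finCongr hlen).injective h'), Or.inl h⟩ }
  refine ⟨E, σ, fun i => ?_⟩
  rw [List.get_ofFn]
  rfl

/-- twins correspond under isomorphisms -/
theorem twin_iso {V W : Type} {Γ : SimpleGraph V} {Δ : SimpleGraph W} (σ : Γ ≃g Δ) {v w : V}
    (h : Twin Δ (σ v) (σ w)) : Twin Γ v w := by
  refine ⟨σ.map_adj_iff.1 h.1, fun u hu hu' => ?_⟩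
  rw [← σ.map_adj_iff, ← σ.map_adj_iff]
  exact h.2 (σ u) (fun e => hu (σ.injective e)) fun e => hu' (σ.injective e)

theorem t_RED' (hM : S_MRG) (hP : S_PRD) : S_RED := by
  classical
  intro C hC p hp
  obtain ⟨n, Γ, k, hk, ⟨u⟩⟩ := hp
  obtain ⟨m, Δ, r, hsurj, hrel, hadj, hnt, ⟨e⟩⟩ := hM n Γ (fun i => PG (k i))
    (fun i => ¬ IsZ (PG (k i)))
  obtain ⟨-, hP2, -⟩ := hP C hC
  have key : ∀ j : Fin m, ∃ q : Pres, (Prods C C q ∨ IsZ (PG q)) ∧
      Nonempty ((∀ i : {v // r v = j}, PG (k i.1)) ≃* PG q) ∧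
      (IsZ (PG q) ∨ ∀ v, r v = j → ¬ IsZ (PG (k v))) := by
    intro j
    by_cases hj : ∃ v, r v = j ∧ IsZ (PG (k v))
    · obtain ⟨v, rfl, hv⟩ := hj
      have huniq : ∀ w, r w = r v → w = v := by
        intro w hw
        rcases (hrel w v).1 hw with h | ⟨-, h, -⟩
        · exact h
        · exact absurd hv h
      let _ : Unique {w // r w = r v} :=
        { default := ⟨v, rfl⟩
          uniq := fun w => Subtype.ext (huniq w.1 w.2) }
      exact ⟨k v, Or.inr hv, ⟨MulEquiv.piUnique fun i : {w // r w = r v} => PG (k i.1)⟩,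
        Or.inl hv⟩
    · have hall : ∀ v, r v = j → ¬ IsZ (PG (k v)) := fun v hv hz => hj ⟨v, hv, hz⟩
      obtain ⟨v0, hv0⟩ := hsurj j
      have : Nonempty {v // r v = j} := ⟨⟨v0, hv0⟩⟩
      obtain ⟨q, hq, ⟨f⟩⟩ := hP2 {v // r v = j} (fun i => k i.1) (fun i =>
        (hk i.1).resolve_right (hall i.1 i.2))
      exact ⟨q, Or.inl hq, ⟨f.symm⟩, Or.inr hall⟩
  choose q hq1 hq2 hq3 using key
  obtain ⟨E, σ, hσ⟩ := code_gr Δ q
  refine ⟨(List.ofFn q, E), ⟨?_, ?_⟩, ?_⟩
  · intro x hx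
    obtain ⟨j, rfl⟩ := List.mem_ofFn.1 hx
    exact hq1 j
  · intro x y hxy
    obtain ⟨j, rfl⟩ := σ.surjective x
    obtain ⟨j', rfl⟩ := σ.surjective y
    have h1 := twin_iso σ hxy
    show IsZ (PG ((List.ofFn q).get (σ j))) ∨ IsZ (PG ((List.ofFn q).get (σ j')))
    rw [hσ j, hσ j']
    rcases hq3 j with h2 | h2
    · exact Or.inl h2
    · rcases hq3 j' with h3 | h3
      · exact Or.inr h3
      · exfalso
        obtain ⟨v, rfl⟩ := hsurj j
        obtain ⟨w, rfl⟩ := hsurj j'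
        exact hnt v w (h2 v rfl) (h3 w rfl) h1
  · obtain ⟨v⟩ := gp_congr (G := fun j => ∀ i : {v // r v = j}, PG (k i.1))
      (H := fun i => PG ((List.ofFn q).get i)) σ (fun j => by
        rw [hσ j]
        exact hq2 j)
    exact ⟨(u.trans e).trans v⟩

theorem t_RED : S_RED := t_RED' t_MRG t_PRD

end Pool.Agent.L0h6.GI
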